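import Pool.Agent.Q182.Interp

/-!
# MP_0c3956_an: no syndetic set is a weak interpolation set of order 2 for uniquely ergodic systems

Let `S` be syndetic with gaps at most `g`. Take `r` with `N = 2 r g < 2^r`. For every word `u` of
length `N` there is `f : S → {0,1}` which differs from `u`, put at any place `n`, at some element of
`S` in `[n, n+N)`: divide `S` into groups of `r` consecutive elements; each group lies in at most `N`
intervals of length `N`, so that one of the `2^r` choices on the group works. Using `f = f_u` on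
windows of lengths tending to infinity, for each `u`, a uniquely ergodic system interpolating `f`
would satisfy, for almost every point `y` and every `u`, `F(T^i y) = 1 - u_i` for some `i < N`; but
this is impossible when `u` is the word read off from `y`.
-/

set_option autoImplicit false

open MeasureTheory Filter Topology

namespace Pool.Agent.Q182.Old.MP_0c3956_an_NoPiecewiseSyndetic

universe u

/-- `T` has exactly one invariant Borel probability measure. -/
def UniquelyErgodic {X : Type u} [MeasurableSpace X] (T : X → X) : Prop :=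
  ∃ μ : Measure X, (IsProbabilityMeasure μ ∧ μ.map T = μ) ∧
    ∀ ν : Measure X, IsProbabilityMeasure ν → ν.map T = ν → ν = μ

/-- `S` is a weak interpolation set of order `k` for uniquely ergodic systems: for every function `f`
on `S` with values in `{0, …, k-1}` there are a compact metric space `X`, a continuous uniquely
ergodic map `T` of `X`, a transitive point `x` and a continuous `F : X → ℂ` with `F (T^n x) = f n`
for all `n ∈ S`. -/
def WeakInterpolationSet (k : ℕ) (S : Set ℕ) : Prop :=
  ∀ f : ℕ → ℕ, (∀ n ∈ S, f n < k) →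
    ∃ (X : Type u) (_ : MetricSpace X) (_ : CompactSpace X) (_ : MeasurableSpace X)
      (_ : BorelSpace X) (T : X → X) (x : X) (F : X → ℂ),
      Continuous T ∧ UniquelyErgodic T ∧ Dense (Set.range fun n : ℕ => T^[n] x) ∧
      Continuous F ∧ ∀ n ∈ S, F (T^[n] x) = (f n : ℂ)

/-- `S` is syndetic: every interval of `L` consecutive positive integers meets `S`. -/
def Syndetic (S : Set ℕ) : Prop :=
  ∃ L : ℕ, ∀ a : ℕ, 1 ≤ a → ∃ s ∈ S, a ≤ s ∧ s < a + L

/-- `S` is piecewise syndetic: for some `L` there are arbitrarily long intervals `[a, a + n + L)` all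
of whose subintervals of length `L` meet `S`. -/
def PiecewiseSyndetic (S : Set ℕ) : Prop :=
  ∃ L : ℕ, ∀ n : ℕ, ∃ a : ℕ, ∀ i < n, ∃ s ∈ S, a + i ≤ s ∧ s < a + i + L

lemma main (k : ℕ) (hk : 2 ≤ k) (S : Set ℕ) (hS : PiecewiseSyndetic S) :
    ¬ WeakInterpolationSet.{u} k S := by
  obtain ⟨g, hg⟩ := hS
  have h1 : ∀ M n : ℕ, ∃ m, M ≤ m ∧ ∀ i < n, ∃ s ∈ S, m + i ≤ s ∧ s < m + i + g := by
    intro M n
    obtain ⟨a, ha⟩ := hg (M + n)
    refine ⟨a + M, by omega, fun i hi => ?_⟩
    obtain ⟨s, hs, h2, h3⟩ := ha (M + i) (by omega)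
    exact ⟨s, hs, by omega, by omega⟩
  choose c hc1 hc2 using h1
  let m : ℕ → ℕ := fun j => Nat.rec (c 0 1) (fun j mj => c (mj + j + 1) (j + 2)) j
  have hm : ∀ j, m (j + 1) = c (m j + j + 1) (j + 2) := fun j => rfl
  have hdis : ∀ j, m j + j < m (j + 1) := by
    intro j
    have := hc1 (m j + j + 1) (j + 2)
    rw [hm]
    omega
  have hwin : ∀ j, ∀ i ∈ Finset.range (j + 1), i ∉ (∅ : Finset ℕ) →
      ∃ s ∈ S, m j + i ≤ s ∧ s < m j + i + g := by
    intro j i hi _
    rw [Finset.mem_range] at hi
    cases j with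
    | zero => exact hc2 0 1 i (by omega)
    | succ j => exact hc2 (m j + j + 1) (j + 2) i (by omega)
  have hinf : S.Infinite := by
    rw [Set.infinite_iff_exists_gt]
    intro M
    obtain ⟨s, hs, h2, _⟩ := hc2 (M + 1) 1 0 (by omega)
    have := hc1 (M + 1) 1
    exact ⟨s, hs, by omega⟩
  obtain ⟨f, hf2, hf⟩ := Pool.Agent.Q182.Interp.exists_f.{u} S hinf m (fun j => j) hdis tendsto_id
    g (fun _ => ∅) hwin (by simp)
  intro hW
  obtain ⟨X, _, _, _, _, T, x, F, hT, hue, _, hF, hF2⟩ := hW f fun n _ => (hf2 n).trans_le hk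
  exact hf X T x F hT hue hF hF2

/-- No syndetic set is a weak interpolation set of order `2` for the class of uniquely ergodic
systems. More generally, no piecewise syndetic set is a weak interpolation set of any order `k ≥ 2`
for this class. -/
theorem result : (∀ S : Set ℕ, Syndetic S → ¬ WeakInterpolationSet.{u} 2 S) ∧
    ∀ k : ℕ, 2 ≤ k → ∀ S : Set ℕ, PiecewiseSyndetic S → ¬ WeakInterpolationSet.{u} k S := by
  refine ⟨fun S hS => main 2 le_rfl S ?_, fun k hk S hS => main k hk S hS⟩
  obtain ⟨L, hL⟩ := hS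
  exact ⟨L, fun n => ⟨1, fun i _ => hL (1 + i) (by omega)⟩⟩

end Pool.Agent.Q182.Old.MP_0c3956_an_NoPiecewiseSyndetic
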