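import Mathlib
import Pool.Prelude.Def_F_c31e40fa
import Pool.Agent.Q186.Cusp.Gen3

/-!
# Parabolic polynomials with nonnegative coefficients: the exact distance to polynomials with a
periodic critical point

Let `f` be a real polynomial of degree at least two with nonnegative coefficients and `f' (0) = 0`
which has a positive fixed point `s` of multiplier one (for every polynomial
`p = a_2 z ^ 2 + ... + a_D z ^ D` with nonnegative coefficients and `a_D > 0` this holds for exactly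
one `f = p + const`), and suppose that `f` has a simple zero. Let `A = f'' (s) / 2`. Among all
complex polynomials `g` near `f`, in the norm of uniform convergence on a disc of radius `R > s`, the
nearest ones which have a periodic critical point of period at most `N` are at a distance
asymptotic to `π ^ 2 / (A N ^ 2)`. No cycle of period at most `N` at all, whatever its multiplier,
meets a given disc of radius `s₁ < s` for polynomials closer than `(1 - o(1)) π ^ 2 / (A N ^ 2)`, and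
the nearest superattracting cycles are found in the family `f + c`.
-/

set_option autoImplicit false

open Filter Topology Set Metric N62a1eb23

namespace Pool.Agent.Results.MP_28f8a1_an.ParabolicLaw

/-- The complex polynomial `g` is `ρ`-close to `f` on the closed disc of radius `R`. -/
def Near (f : Polynomial ℝ) (R ρ : ℝ) (g : Polynomial ℂ) : Prop :=
  ∀ z : ℂ, ‖z‖ ≤ R → ‖g.eval z - Polynomial.aeval z f‖ ≤ ρ

/-- `g` has a cycle of period at most `N` which meets the closed disc of radius `s₁`. -/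
def HasCycle (s₁ : ℝ) (N : ℕ) (g : Polynomial ℂ) : Prop :=
  ∃ w : ℂ, ‖w‖ ≤ s₁ ∧ ∃ p : ℕ, 1 ≤ p ∧ p ≤ N ∧ (fun z => g.eval z)^[p] w = w

/-- `g` has a critical point in the closed disc of radius `s₁` which is periodic of period at most
`N` (and so a superattracting cycle). -/
def HasCriticalCycle (s₁ : ℝ) (N : ℕ) (g : Polynomial ℂ) : Prop :=
  ∃ w : ℂ, ‖w‖ ≤ s₁ ∧ g.derivative.eval w = 0 ∧
    ∃ p : ℕ, 1 ≤ p ∧ p ≤ N ∧ (fun z => g.eval z)^[p] w = w

/-- Let `f` be a real polynomial of degree at least two, with nonnegative coefficients and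
`f' (0) = 0`, let `s > 0` be a fixed point of multiplier `1`, let `ζ` be a simple zero of `f` in `ℂ`,
let `0 ≤ s₁ < s < R`, and `A = f'' (s) / 2`. Then `A > 0` and

(1) for every `0 < δ < 1` and all large `N` no complex polynomial `g` (of any degree) with
`|g - f| ≤ (1 - δ) π ^ 2 / (A N ^ 2)` on the disc of radius `R` has a cycle of period at most `N`
which meets the disc of radius `s₁`;

(2) for every `δ > 0` and all large `N` there is `c` with `|c| ≤ (1 + δ) π ^ 2 / (A N ^ 2)` such that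
the critical point `0` of `f + c` is periodic of period `p ≤ N` (superattracting);

(3) `N ^ 2` times the distance from `f` to the complex polynomials of degree at most `deg f` with a
critical point in the disc of radius `s₁` which is periodic of period at most `N` tends to
`π ^ 2 / A`;

(4) `N ^ 2` times the distance from `f` to the complex polynomials of degree at most `deg f` with any
cycle of period at most `N` meeting the disc of radius `s₁` has the same limit. -/
theorem result (f : Polynomial ℝ) (hcoef : ∀ j, 0 ≤ f.coeff j) (hcrit : f.coeff 1 = 0)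
    (hdeg : 2 ≤ f.natDegree) (s : ℝ) (hs : 0 < s) (hfix : f.eval s = s)
    (hder : f.derivative.eval s = 1) (ζ : ℂ) (hζ : Polynomial.aeval ζ f = 0)
    (hζ' : Polynomial.aeval ζ f.derivative ≠ 0) (s₁ R : ℝ) (hs₁0 : 0 ≤ s₁) (hs₁ : s₁ < s)
    (hR : s < R) (A : ℝ) (hA : A = f.derivative.derivative.eval s / 2) :
    0 < A ∧
    (∀ δ : ℝ, 0 < δ → δ < 1 → ∀ᶠ N : ℕ in atTop, ∀ g : Polynomial ℂ,
      Near f R ((1 - δ) * (Real.pi ^ 2 / (A * N ^ 2))) g → ¬ HasCycle s₁ N g) ∧
    (∀ δ : ℝ, 0 < δ → ∀ᶠ N : ℕ in atTop, ∃ c : ℂ, ‖c‖ ≤ (1 + δ) * (Real.pi ^ 2 / (A * N ^ 2)) ∧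
      ∃ p : ℕ, 1 ≤ p ∧ p ≤ N ∧ (fun z : ℂ => Polynomial.aeval z f + c)^[p] 0 = 0 ∧
        IsAttractingCycle (fun z : ℂ => Polynomial.aeval z f + c) p 0) ∧
    Tendsto (fun N : ℕ => (N : ℝ) ^ 2 * sInf {ρ : ℝ | ∃ g : Polynomial ℂ,
      g.natDegree ≤ f.natDegree ∧ Near f R ρ g ∧ HasCriticalCycle s₁ N g}) atTop
      (𝓝 (Real.pi ^ 2 / A)) ∧
    Tendsto (fun N : ℕ => (N : ℝ) ^ 2 * sInf {ρ : ℝ | ∃ g : Polynomial ℂ,
      g.natDegree ≤ f.natDegree ∧ Near f R ρ g ∧ HasCycle s₁ N g}) atTop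
      (𝓝 (Real.pi ^ 2 / A)) := by
  have hpi := Real.pi_pos
  have hpar := Pool.Agent.Q186.Cusp.Gen.par_poly hcoef hdeg hs hfix hder
  have hmaj := Pool.Agent.Q186.Cusp.Gen.maj_poly (f := f) hcoef
  have hGA : Pool.Agent.Q186.Cusp.Gen.GG f s s = A := by
    rw [Pool.Agent.Q186.Cusp.Gen.GG_self, hA]
  have hA0 : 0 < A := by
    rw [← hGA]
    exact hpar.κ_pos.trans_le (hpar.ge s hs.le)
  have hR0 : 0 ≤ R := by linarith
  have hdiff : Differentiable ℂ fun z : ℂ => Polynomial.aeval z f := Polynomial.differentiable_aeval f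
  have hderiv : ∀ z : ℂ, deriv (fun z : ℂ => Polynomial.aeval z f) z =
      Polynomial.aeval z f.derivative := fun z => Polynomial.deriv_aeval f
  have hder0 : Polynomial.aeval (0 : ℂ) f.derivative = 0 := by
    have h1 : Polynomial.aeval (0 : ℂ) f.derivative = ((f.derivative.coeff 0 : ℝ) : ℂ) := by
      rw [Polynomial.aeval_def, Polynomial.eval₂_at_zero]
      rfl
    rw [h1, Polynomial.coeff_derivative, zero_add, hcrit]
    simp
  -- the polynomial `f + c`
  have hev : ∀ (c z : ℂ), (f.map (algebraMap ℝ ℂ) + Polynomial.C c).eval z =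
      Polynomial.aeval z f + c := by
    intro c z
    rw [Polynomial.eval_add, Polynomial.eval_C, Polynomial.eval_map_algebraMap]
  have hevf : ∀ c : ℂ, (fun z => (f.map (algebraMap ℝ ℂ) + Polynomial.C c).eval z) =
      fun z : ℂ => Polynomial.aeval z f + c := fun c => funext (hev c)
  have hlow : ∀ δ : ℝ, 0 < δ → ∃ r₀ : ℝ, 0 < r₀ ∧ ∀ r : ℝ, 0 < r → r ≤ r₀ → ∀ N : ℕ,
      ∀ g : Polynomial ℂ, Near f R r g → HasCycle s₁ N g → Real.pi - δ < N * √(A * r) := by
    intro δ hδ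
    obtain ⟨r₀, hr₀, H⟩ := Pool.Agent.Q186.Cusp.Gen.no_cycle hmaj hpar hδ hs₁ hR
    refine ⟨r₀, hr₀, ?_⟩
    rintro r hr hrr N g hg ⟨w, hw, p, hp1, hp2, hp3⟩
    have h1 := H r hr hrr (fun z => g.eval z) hg w hw p hp1 hp3
    rw [hGA] at h1
    refine h1.trans_le ?_
    apply mul_le_mul_of_nonneg_right _ (Real.sqrt_nonneg _)
    exact_mod_cast hp2
  have hex : ∀ δ : ℝ, 0 < δ → ∃ r₀ : ℝ, 0 < r₀ ∧ ∀ r : ℝ, 0 < r → r ≤ r₀ → ∀ N : ℕ,
      Real.pi + δ ≤ N * √(A * r) → ∃ c : ℂ, ‖c‖ ≤ r ∧ ∃ p : ℕ, 1 ≤ p ∧ p ≤ N + 1 ∧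
        (fun z : ℂ => Polynomial.aeval z f + c)^[p] 0 = 0 := by
    intro δ hδ
    obtain ⟨r₀, hr₀, H⟩ := Pool.Agent.Q186.Cusp.Gen.exists_cycle hmaj hpar hdiff hζ
      (by rw [hderiv]; exact hζ') hδ
    rw [hGA] at H
    exact ⟨r₀, hr₀, H⟩
  have hcc : ∀ (N : ℕ) (g : Polynomial ℂ), HasCriticalCycle s₁ N g → HasCycle s₁ N g := by
    rintro N g ⟨w, h1, -, h2⟩
    exact ⟨w, h1, h2⟩
  have hmem : ∀ (N : ℕ) (r : ℝ) (c : ℂ), ‖c‖ ≤ r → ∀ p : ℕ, 1 ≤ p → p ≤ N →
      (fun z : ℂ => Polynomial.aeval z f + c)^[p] 0 = 0 →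
      (f.map (algebraMap ℝ ℂ) + Polynomial.C c).natDegree ≤ f.natDegree ∧
      Near f R r (f.map (algebraMap ℝ ℂ) + Polynomial.C c) ∧
      HasCriticalCycle s₁ N (f.map (algebraMap ℝ ℂ) + Polynomial.C c) := by
    intro N r c hc p hp1 hp2 hp3
    refine ⟨?_, ?_, ?_⟩
    · refine (Polynomial.natDegree_add_le _ _).trans ?_
      rw [Polynomial.natDegree_C]
      exact max_le Polynomial.natDegree_map_le (Nat.zero_le _)
    · intro z _
      rw [hev, add_sub_cancel_left]
      exact hc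
    · refine ⟨0, by simpa using hs₁0, ?_, p, hp1, hp2, ?_⟩
      · rw [Polynomial.derivative_add, Polynomial.derivative_C, add_zero,
          Polynomial.derivative_map, Polynomial.eval_map_algebraMap]
        exact hder0
      · rw [hevf]
        exact hp3
  refine ⟨hA0, ?_, ?_, ?_, ?_⟩
  · intro δ hδ hδ1
    have hsq : 0 < √(1 - δ) := by
      apply Real.sqrt_pos.2
      linarith
    have hsq1 : √(1 - δ) < 1 := by
      rw [Real.sqrt_lt' one_pos]
      linarith
    obtain ⟨r₀, hr₀, H⟩ := hlow (Real.pi * (1 - √(1 - δ))) (mul_pos hpi (by linarith))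
    have h1 : Tendsto (fun N : ℕ => (1 - δ) * (Real.pi ^ 2 / A) * (1 / (N : ℝ)) ^ 2) atTop
        (𝓝 0) := by
      have := (tendsto_one_div_atTop_nhds_zero_nat (𝕜 := ℝ)).pow 2
      have := this.const_mul ((1 - δ) * (Real.pi ^ 2 / A))
      simpa using this
    filter_upwards [h1.eventually (gt_mem_nhds hr₀), eventually_ge_atTop 1] with N hN1 hN2
    intro g hg hcyc
    have hN0 : (0 : ℝ) < N := by exact_mod_cast hN2
    have hδ' : 0 < 1 - δ := by linarith
    have e1 : (1 - δ) * (Real.pi ^ 2 / (A * N ^ 2)) =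
        (1 - δ) * (Real.pi ^ 2 / A) * (1 / (N : ℝ)) ^ 2 := by
      field_simp
    have h2 := H ((1 - δ) * (Real.pi ^ 2 / (A * N ^ 2))) (by positivity) (by
      rw [e1]
      exact hN1.le) N g hg hcyc
    have e2 : A * ((1 - δ) * (Real.pi ^ 2 / (A * N ^ 2))) = (1 - δ) * (Real.pi / N) ^ 2 := by
      field_simp
    rw [e2, Real.sqrt_mul hδ'.le, Real.sqrt_sq (by positivity)] at h2
    have e3 : (N : ℝ) * (√(1 - δ) * (Real.pi / N)) = √(1 - δ) * Real.pi := by
      field_simp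
    rw [e3] at h2
    linarith
  · intro δ hδ
    have hsq1 : 1 < √(1 + δ) := by
      rw [Real.lt_sqrt zero_le_one]
      linarith
    obtain ⟨b, hb⟩ : ∃ b, b = √(1 + δ) := ⟨_, rfl⟩
    rw [← hb] at hsq1
    obtain ⟨r₀, hr₀, H⟩ := hex (Real.pi * ((b - 1) / 2)) (mul_pos hpi (by linarith))
    have h1 : Tendsto (fun N : ℕ => (1 + δ) * (Real.pi ^ 2 / A) * (1 / (N : ℝ)) ^ 2) atTop
        (𝓝 0) := by
      have := (tendsto_one_div_atTop_nhds_zero_nat (𝕜 := ℝ)).pow 2
      have := this.const_mul ((1 + δ) * (Real.pi ^ 2 / A))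
      simpa using this
    obtain ⟨M, hM⟩ := exists_nat_gt (2 * b / (b - 1))
    filter_upwards [h1.eventually (gt_mem_nhds hr₀), eventually_ge_atTop (max 1 M)]
      with N hN1 hN2
    have hN3 : 1 ≤ N := (le_max_left _ _).trans hN2
    have hN4 : (M : ℝ) ≤ N := by exact_mod_cast (le_max_right _ _).trans hN2
    have hN0 : (0 : ℝ) < N := by exact_mod_cast hN3
    obtain ⟨k, rfl⟩ := Nat.exists_eq_add_of_le' hN3
    have e1 : (1 + δ) * (Real.pi ^ 2 / (A * ((k + 1 : ℕ) : ℝ) ^ 2)) =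
        (1 + δ) * (Real.pi ^ 2 / A) * (1 / ((k + 1 : ℕ) : ℝ)) ^ 2 := by
      field_simp
    have e2 : A * ((1 + δ) * (Real.pi ^ 2 / (A * ((k + 1 : ℕ) : ℝ) ^ 2))) =
        (1 + δ) * (Real.pi / ((k + 1 : ℕ) : ℝ)) ^ 2 := by
      field_simp
    obtain ⟨c, hc, p, hp1, hp2, hp3⟩ := H ((1 + δ) * (Real.pi ^ 2 / (A * ((k + 1 : ℕ) : ℝ) ^ 2)))
      (by positivity) (by rw [e1]; exact hN1.le) k (by
        rw [e2, Real.sqrt_mul (by linarith), Real.sqrt_sq (by positivity), ← hb]
        have h2 : 2 * b / (b - 1) ≤ ((k + 1 : ℕ) : ℝ) := hM.le.trans hN4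
        rw [div_le_iff₀ (by linarith)] at h2
        have e3 : (k : ℝ) * (b * (Real.pi / ((k + 1 : ℕ) : ℝ))) =
            Real.pi * (b * k / ((k + 1 : ℕ) : ℝ)) := by ring
        have e4 : Real.pi + Real.pi * ((b - 1) / 2) = Real.pi * ((b + 1) / 2) := by ring
        rw [e3, e4]
        apply mul_le_mul_of_nonneg_left _ hpi.le
        rw [le_div_iff₀ hN0]
        push_cast at h2 ⊢
        nlinarith)
    refine ⟨c, hc, p, hp1, hp2, hp3, hp1, hp3, ?_, ?_⟩
    · exact ((hdiff.add_const c).iterate p).differentiableAt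
    · obtain ⟨q, rfl⟩ := Nat.exists_eq_add_of_le' hp1
      rw [Function.iterate_succ]
      have h5 : deriv ((fun z : ℂ => Polynomial.aeval z f + c)^[q] ∘
          fun z : ℂ => Polynomial.aeval z f + c) 0 = 0 := by
        rw [deriv_comp 0 ((hdiff.add_const c).iterate q).differentiableAt
          (hdiff.add_const c).differentiableAt]
        have h6 : deriv (fun z : ℂ => Polynomial.aeval z f + c) 0 = 0 := by
          rw [deriv_add_const, hderiv]
          exact hder0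
        rw [h6, mul_zero]
      rw [h5, norm_zero]
      exact one_pos
  · apply Pool.Agent.Q186.Cusp.Gen.limit_abs hA0
    · rintro N ρ ⟨g, h1, h2, h3⟩ r hr
      exact ⟨g, h1, fun z hz => (h2 z hz).trans hr, h3⟩
    · rintro N ρ ⟨g, h1, h2, h3⟩
      exact (norm_nonneg _).trans (h2 0 (by simpa using hR0))
    · intro δ hδ
      obtain ⟨r₀, hr₀, H⟩ := hlow δ hδ
      refine ⟨r₀, hr₀, ?_⟩
      rintro r hr hrr N ⟨g, h1, h2, h3⟩
      exact H r hr hrr N g h2 (hcc N g h3)
    · intro δ hδ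
      obtain ⟨r₀, hr₀, H⟩ := hex δ hδ
      refine ⟨r₀, hr₀, ?_⟩
      intro r hr hrr N hN
      obtain ⟨c, hc, p, hp1, hp2, hp3⟩ := H r hr hrr N hN
      exact ⟨_, hmem (N + 1) r c hc p hp1 hp2 hp3⟩
  · apply Pool.Agent.Q186.Cusp.Gen.limit_abs hA0
    · rintro N ρ ⟨g, h1, h2, h3⟩ r hr
      exact ⟨g, h1, fun z hz => (h2 z hz).trans hr, h3⟩
    · rintro N ρ ⟨g, h1, h2, h3⟩
      exact (norm_nonneg _).trans (h2 0 (by simpa using hR0))
    · intro δ hδ
      obtain ⟨r₀, hr₀, H⟩ := hlow δ hδ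
      refine ⟨r₀, hr₀, ?_⟩
      rintro r hr hrr N ⟨g, h1, h2, h3⟩
      exact H r hr hrr N g h2 h3
    · intro δ hδ
      obtain ⟨r₀, hr₀, H⟩ := hex δ hδ
      refine ⟨r₀, hr₀, ?_⟩
      intro r hr hrr N hN
      obtain ⟨c, hc, p, hp1, hp2, hp3⟩ := H r hr hrr N hN
      obtain ⟨h1, h2, h3⟩ := hmem (N + 1) r c hc p hp1 hp2 hp3
      exact ⟨_, h1, h2, hcc _ _ h3⟩

end Pool.Agent.Results.MP_28f8a1_an.ParabolicLaw
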